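import Pool.Agent.H11.EL.Targets2

/-!
# MP_0b603e_al: commutators in groups of bounded complexity (module CM)
-/

set_option autoImplicit false

namespace Pool.Agent.H23.EL

open Pool.Agent.H11.EL

open scoped commutatorElement

private theorem pw_sub {r : ℕ} {w : FreeGroup (Fin r)} {M : ℕ} {G : Type} [Group G]
    (N : Subgroup G) (h : ∀ x y : N, PW w M ⁅x, y⁆) :
    ∀ x ∈ N, ∀ y ∈ N, PW w M ⁅x, y⁆ := by
  intro x hx y hy
  have h1 := (h ⟨x, hx⟩ ⟨y, hy⟩).map N.subtype
  rw [map_commutatorElement] at h1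
  exact h1

theorem pf_cm : T_EX → T_NI → T_MG → T_XT → T_LB → T_CM := by
  intro EX NI MG XT LB r w hw ρ k
  induction k with
  | zero =>
    obtain ⟨L, σ, hσ, hL⟩ := EX r w hw
    obtain ⟨M, hM⟩ := LB r w hw ρ
    refine ⟨max (L + L) M, ?_⟩
    intro G _ hC x y
    rcases hC with hn | ⟨hf, hc⟩
    · obtain ⟨h, k, hk⟩ := NI σ hσ G hn x y
      rw [hk]
      exact ((hL G x h).mul (hL G y k)).mono (le_max_left _ _)
    · exact (hM G hf hc x y).mono (le_max_right _ _)
  | succ k ih =>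
    obtain ⟨M, hM⟩ := ih
    obtain ⟨M1, h1⟩ := XT r w hw M M
    obtain ⟨M2, h2⟩ := MG r w hw M M
    refine ⟨max M (max M1 M2), ?_⟩
    intro G _ hC x y
    rcases hC with hC | ⟨N, hN, c1, c2⟩ | ⟨A, B, hAB, cA, cB⟩
    · exact (hM G hC x y).mono (le_max_left _ _)
    · haveI := hN
      exact (h1 G N (pw_sub N (fun a b => hM N c1 a b)) (fun a b => hM (G ⧸ N) c2 a b) x y).mono
        (le_max_of_le_right (le_max_left _ _))
    · exact (h2 G A B hAB (pw_sub A (fun a b => hM A cA a b))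
        (pw_sub B (fun a b => hM B cB a b)) x y).mono
        (le_max_of_le_right (le_max_right _ _))

end Pool.Agent.H23.EL
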